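import Pool.Agent.Y320.CM.Stm

/-! Project CM: the action on hyperbolic space is cocompact (`S_REPC`). -/

set_option autoImplicit false
open Filter Topology

namespace Pool.Agent.Y31.CM

open Pool.Agent.Y320.CM

theorem B_add_left (u v w : V) : B (u + v) w = B u w + B v w := by
  simp only [B, Pi.add_apply]; ring

theorem B_add_right (u v w : V) : B u (v + w) = B u v + B u w := by
  simp only [B, Pi.add_apply]; ring

theorem B_smul_left (c : ℝ) (v w : V) : B (c • v) w = c * B v w := by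
  simp only [B, Pi.smul_apply, smul_eq_mul]; ring

theorem B_smul_right (c : ℝ) (v w : V) : B v (c • w) = c * B v w := by
  simp only [B, Pi.smul_apply, smul_eq_mul]; ring

theorem sph_sq (p : Sph) : (p.1 0) ^ 2 + (p.1 1) ^ 2 + (p.1 2) ^ 2 = 1 := by
  have h : ‖p.1‖ = 1 := by
    simp
  have h2 := EuclideanSpace.norm_sq_eq p.1
  rw [h, Fin.sum_univ_three] at h2
  simp only [Real.norm_eq_abs, sq_abs] at h2
  linarith

theorem exists_sph (x y z : ℝ) (h : x ^ 2 + y ^ 2 + z ^ 2 = 1) :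
    ∃ p : Sph, p.1 0 = x ∧ p.1 1 = y ∧ p.1 2 = z := by
  refine ⟨⟨!₂[x, y, z], ?_⟩, rfl, rfl, rfl⟩
  rw [mem_sphere_zero_iff_norm]
  have h2 := EuclideanSpace.norm_sq_eq (!₂[x, y, z] : EuclideanSpace ℝ (Fin 3))
  rw [Fin.sum_univ_three] at h2
  simp only [Real.norm_eq_abs, sq_abs] at h2
  have h3 : ‖(!₂[x, y, z] : EuclideanSpace ℝ (Fin 3))‖ ^ 2 = 1 := by
    rw [h2]
    exact h
  nlinarith [norm_nonneg (!₂[x, y, z] : EuclideanSpace ℝ (Fin 3))]

theorem dist_sq (p q : Sph) : dist p q ^ 2 =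
    (p.1 0 - q.1 0) ^ 2 + (p.1 1 - q.1 1) ^ 2 + (p.1 2 - q.1 2) ^ 2 := by
  rw [Subtype.dist_eq, EuclideanSpace.dist_eq, Real.sq_sqrt (Finset.sum_nonneg fun i _ => sq_nonneg _),
    Fin.sum_univ_three]
  simp only [Real.dist_eq, sq_abs]

theorem B_N (p q : Sph) : B (N p) (N q) = -(dist p q ^ 2) / 2 := by
  have h1 := sph_sq p
  have h2 := sph_sq q
  rw [dist_sq]
  have h3 : B (N p) (N q) = -1 + p.1 0 * q.1 0 + p.1 1 * q.1 1 + p.1 2 * q.1 2 := by
    simp [B, N]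
  rw [h3]
  linarith

theorem dist_le_two (p q : Sph) : dist p q ≤ 2 := by
  have h := dist_triangle p.1 0 q.1
  have hp : dist p.1 0 = 1 := p.2
  have hq : dist (0 : EuclideanSpace ℝ (Fin 3)) q.1 = 1 := by
    rw [dist_comm]
    exact q.2
  rw [Subtype.dist_eq]
  linarith

theorem frame (a b c : ℝ) : ∃ x1 y1 z1 x2 y2 z2 : ℝ, x1 ^ 2 + y1 ^ 2 + z1 ^ 2 = 1 ∧
    x2 ^ 2 + y2 ^ 2 + z2 ^ 2 = 1 ∧ x1 * x2 + y1 * y2 + z1 * z2 = 0 ∧
    a * x1 + b * y1 + c * z1 = 0 ∧ a * x2 + b * y2 + c * z2 = 0 := by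
  by_cases h : a ^ 2 + b ^ 2 = 0
  · have ha : a = 0 := by nlinarith [sq_nonneg a, sq_nonneg b]
    have hb : b = 0 := by nlinarith [sq_nonneg a, sq_nonneg b]
    subst ha hb
    exact ⟨1, 0, 0, 0, 1, 0, by norm_num, by norm_num, by norm_num, by norm_num, by norm_num⟩
  · have hr : 0 < a ^ 2 + b ^ 2 := lt_of_le_of_ne (by positivity) (Ne.symm h)
    have hn : 0 < a ^ 2 + b ^ 2 + c ^ 2 := by positivity
    obtain ⟨r, hr0, hr2⟩ : ∃ r : ℝ, 0 < r ∧ r ^ 2 = a ^ 2 + b ^ 2 :=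
      ⟨√(a ^ 2 + b ^ 2), Real.sqrt_pos.2 hr, Real.sq_sqrt hr.le⟩
    obtain ⟨n, hn0, hn2⟩ : ∃ n : ℝ, 0 < n ∧ n ^ 2 = a ^ 2 + b ^ 2 + c ^ 2 :=
      ⟨√(a ^ 2 + b ^ 2 + c ^ 2), Real.sqrt_pos.2 hn, Real.sq_sqrt hn.le⟩
    refine ⟨-b / r, a / r, 0, -(a * c) / (n * r), -(b * c) / (n * r), r / n, ?_, ?_, ?_, ?_, ?_⟩
    · field_simp
      linarith
    · have e : (-(a * c) / (n * r)) ^ 2 + (-(b * c) / (n * r)) ^ 2 + (r / n) ^ 2 =
          ((a ^ 2 + b ^ 2) * c ^ 2 + (r ^ 2) ^ 2) / (n ^ 2 * r ^ 2) := by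
        field_simp
      rw [e, hr2, hn2, div_eq_one_iff_eq (by positivity)]
      ring
    · field_simp
      ring
    · field_simp
      ring
    · have e : a * (-(a * c) / (n * r)) + b * (-(b * c) / (n * r)) + c * (r / n) =
          c * (r ^ 2 - (a ^ 2 + b ^ 2)) / (n * r) := by
        field_simp
        ring
      rw [e, hr2, sub_self, mul_zero, zero_div]

/-- a point of hyperbolic space is the centre of an ideal triangle -/
theorem triangle (v : V) (hv : v ∈ Hyp) : ∃ p1 p2 p3 : Sph,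
    v = (v 0 / 3) • (N p1 + N p2 + N p3) ∧ v 0 ^ 2 * dist p1 p2 ^ 2 = 3 ∧
    v 0 ^ 2 * dist p1 p3 ^ 2 = 3 ∧ v 0 ^ 2 * dist p2 p3 ^ 2 = 3 := by
  obtain ⟨h0, h1⟩ := hv
  obtain ⟨x1, y1, z1, x2, y2, z2, e1, e2, e3, e4, e5⟩ := frame (v 1) (v 2) (v 3)
  obtain ⟨s, hs⟩ : ∃ s : ℝ, s ^ 2 = 3 := ⟨√3, Real.sq_sqrt (by norm_num)⟩
  -- the three vectors
  have key : ∀ x y z : ℝ, x ^ 2 + y ^ 2 + z ^ 2 = 1 → v 1 * x + v 2 * y + v 3 * z = 0 →
      ((v 1 + x) / v 0) ^ 2 + ((v 2 + y) / v 0) ^ 2 + ((v 3 + z) / v 0) ^ 2 = 1 := by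
    intro x y z ha hb
    rw [div_pow, div_pow, div_pow, ← add_div, ← add_div, div_eq_one_iff_eq (by positivity)]
    linarith
  obtain ⟨p1, a1, a2, a3⟩ := exists_sph _ _ _ (key x1 y1 z1 e1 e4)
  obtain ⟨p2, b1, b2, b3⟩ := exists_sph _ _ _ (key (-x1 / 2 + s / 2 * x2) (-y1 / 2 + s / 2 * y2)
    (-z1 / 2 + s / 2 * z2)
    (by linear_combination (1 / 4) * e1 + (s ^ 2 / 4) * e2 - (s / 2) * e3 + (1 / 4) * hs) (by linear_combination (-1/2) * e4 + s / 2 * e5))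
  obtain ⟨p3, c1, c2, c3⟩ := exists_sph _ _ _ (key (-x1 / 2 - s / 2 * x2) (-y1 / 2 - s / 2 * y2)
    (-z1 / 2 - s / 2 * z2)
    (by linear_combination (1 / 4) * e1 + (s ^ 2 / 4) * e2 + (s / 2) * e3 + (1 / 4) * hs) (by linear_combination (-1/2) * e4 - s / 2 * e5))
  have hv0 : v 0 ≠ 0 := h0.ne'
  refine ⟨p1, p2, p3, ?_, ?_, ?_, ?_⟩
  · funext i
    fin_cases i
    · simp [N]
      ring
    · simp [N, a1, b1, c1]
      field_simp
      ring
    · simp [N, a2, b2, c2]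
      field_simp
      ring
    · simp [N, a3, b3, c3]
      field_simp
      ring
  · rw [dist_sq, a1, a2, a3, b1, b2, b3]
    field_simp
    linear_combination 9 * e1 + s ^ 2 * e2 + (-6) * s * e3 + hs
  · rw [dist_sq, a1, a2, a3, c1, c2, c3]
    field_simp
    linear_combination 9 * e1 + s ^ 2 * e2 + 6 * s * e3 + hs
  · rw [dist_sq, b1, b2, b3, c1, c2, c3]
    field_simp
    linear_combination 4 * s ^ 2 * e2 + 4 * hs

theorem compact_part (T : ℝ) (hT : 0 ≤ T) : IsCompact {w : V | 1 ≤ w 0 ∧ w 0 ≤ T ∧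
    -(w 0) ^ 2 + (w 1) ^ 2 + (w 2) ^ 2 + (w 3) ^ 2 = -1} := by
  have c0 : Continuous fun w : V => w 0 := continuous_apply 0
  have c1 : Continuous fun w : V => w 1 := continuous_apply 1
  have c2 : Continuous fun w : V => w 2 := continuous_apply 2
  have c3 : Continuous fun w : V => w 3 := continuous_apply 3
  have h0 : IsClosed {w : V | 1 ≤ w 0} := isClosed_le continuous_const c0
  have h1 : IsClosed {w : V | w 0 ≤ T} := isClosed_le c0 continuous_const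
  have h2 : IsClosed {w : V | -(w 0) ^ 2 + (w 1) ^ 2 + (w 2) ^ 2 + (w 3) ^ 2 = -1} :=
    isClosed_eq ((((c0.pow 2).neg.add (c1.pow 2)).add (c2.pow 2)).add (c3.pow 2)) continuous_const
  have h3 : IsCompact (Set.Icc (fun _ : Fin 4 => -T) (fun _ : Fin 4 => T)) := isCompact_Icc
  refine h3.of_isClosed_subset (h0.inter (h1.inter h2)) ?_
  rintro w ⟨h1, h2, h3⟩
  have h5 : w 0 ^ 2 ≤ T ^ 2 := by nlinarith
  have h4 : ∀ i, |w i| ≤ T := by
    intro i
    refine abs_le_of_sq_le_sq ?_ hT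
    fin_cases i
    · exact h5
    · show w 1 ^ 2 ≤ _
      nlinarith [sq_nonneg (w 2), sq_nonneg (w 3)]
    · show w 2 ^ 2 ≤ _
      nlinarith [sq_nonneg (w 1), sq_nonneg (w 3)]
    · show w 3 ^ 2 ≤ _
      nlinarith [sq_nonneg (w 1), sq_nonneg (w 2)]
  exact ⟨fun i => (abs_le.1 (h4 i)).1, fun i => (abs_le.1 (h4 i)).2⟩

theorem repc : S_REPC := by
  intro G _ τ hact F hF hFb ρ l hl hρ hB hH
  obtain ⟨c, hc, hcoc⟩ := hact.coc
  -- the lower bound for the distances of the images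
  obtain ⟨c', hc', hF'⟩ : ∃ c' : ℝ, 0 < c' ∧ ∀ x y : Sph, c ≤ dist x y → c' ≤ dist (F x) (F y) := by
    have hK : IsCompact {q : Sph × Sph | c ≤ dist q.1 q.2} :=
      (isClosed_le continuous_const (continuous_fst.dist continuous_snd)).isCompact
    have hcont : ContinuousOn (fun q : Sph × Sph => dist (F q.1) (F q.2))
        {q : Sph × Sph | c ≤ dist q.1 q.2} :=
      ((hF.comp continuous_fst).dist (hF.comp continuous_snd)).continuousOn
    rcases Set.eq_empty_or_nonempty {q : Sph × Sph | c ≤ dist q.1 q.2} with he | hne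
    · refine ⟨1, one_pos, fun x y hxy => ?_⟩
      have : ((x, y) : Sph × Sph) ∈ {q : Sph × Sph | c ≤ dist q.1 q.2} := hxy
      rw [he] at this
      exact this.elim
    · obtain ⟨q, hq, hmin⟩ := hK.exists_isMinOn hne hcont
      have hq' : c ≤ dist q.1 q.2 := hq
      refine ⟨dist (F q.1) (F q.2), dist_pos.2 fun h => ?_, fun x y hxy => ?_⟩
      · have h1 := hFb.1 h
        rw [h1, dist_self] at hq'
        linarith
      · have hm : ((x, y) : Sph × Sph) ∈ {q : Sph × Sph | c ≤ dist q.1 q.2} := hxy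
        have h2 := isMinOn_iff.1 hmin (x, y) hm
        exact h2
  set E : ℝ := 3 / c' ^ 2 with hE
  have hE0 : 0 < E := by positivity
  refine ⟨{w : V | 1 ≤ w 0 ∧ w 0 ≤ 2 * E ∧
    -(w 0) ^ 2 + (w 1) ^ 2 + (w 2) ^ 2 + (w 3) ^ 2 = -1}, ?_, ?_, ?_⟩
  · exact compact_part _ (by positivity)
  · rintro w ⟨h1, h2, h3⟩
    exact ⟨by linarith, h3⟩
  · intro v hv
    obtain ⟨p1, p2, p3, hvp, d12, d13, d23⟩ := triangle v hv
    have hv0 : 0 < v 0 := hv.1
    obtain ⟨a1, ha1⟩ := hFb.2 p1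
    obtain ⟨a2, ha2⟩ := hFb.2 p2
    obtain ⟨a3, ha3⟩ := hFb.2 p3
    have hne : ∀ (a b : Sph) (p q : Sph), F a = p → F b = q → v 0 ^ 2 * dist p q ^ 2 = 3 → a ≠ b := by
      intro a b p q h1 h2 h3 h4
      rw [← h1, ← h2, h4, dist_self] at h3
      norm_num at h3
    obtain ⟨g, g12, g13, g23⟩ := hcoc a1 a2 a3 (hne _ _ _ _ ha1 ha2 d12) (hne _ _ _ _ ha1 ha3 d13)
      (hne _ _ _ _ ha2 ha3 d23)
    -- the products of the factors
    have hprod : ∀ (a b : Sph) (p q : Sph), F a = p → F b = q → v 0 ^ 2 * dist p q ^ 2 = 3 →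
        c ≤ dist (τ g a) (τ g b) →
        3 / 4 ≤ (v 0 * l g a) * (v 0 * l g b) ∧ (v 0 * l g a) * (v 0 * l g b) ≤ E := by
      intro a b p q h1 h2 h3 h4
      have h5 := hB g (N (F a)) (N (F b))
      rw [hρ, hρ, B_smul_left, B_smul_right, B_N, B_N, h1, h2] at h5
      have h6 := hF' _ _ h4
      have h7 := dist_le_two (F (τ g a)) (F (τ g b))
      set D := dist (F (τ g a)) (F (τ g b)) with hD
      have h8 : (v 0 * l g a) * (v 0 * l g b) * D ^ 2 = 3 := by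
        linear_combination h3 - 2 * v 0 ^ 2 * h5
      have hk : 0 < (v 0 * l g a) * (v 0 * l g b) :=
        mul_pos (mul_pos hv0 (hl g a)) (mul_pos hv0 (hl g b))
      have hD0 : 0 < D := lt_of_lt_of_le hc' h6
      constructor
      · have h9 : D ^ 2 ≤ 4 := by nlinarith
        nlinarith
      · rw [hE, le_div_iff₀ (by positivity)]
        have h9 : c' ^ 2 ≤ D ^ 2 := by nlinarith
        nlinarith
    obtain ⟨l12, u12⟩ := hprod _ _ _ _ ha1 ha2 d12 g12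
    obtain ⟨l13, u13⟩ := hprod _ _ _ _ ha1 ha3 d13 g13
    obtain ⟨l23, u23⟩ := hprod _ _ _ _ ha2 ha3 d23 g23
    have k1 : 0 < v 0 * l g a1 := mul_pos hv0 (hl g a1)
    have k2 : 0 < v 0 * l g a2 := mul_pos hv0 (hl g a2)
    have k3 : 0 < v 0 * l g a3 := mul_pos hv0 (hl g a3)
    have hbd : ∀ x y z : ℝ, 0 < x → 0 < y → 0 < z → x * y ≤ E → x * z ≤ E → 3 / 4 ≤ y * z →
        x ≤ 2 * E := by
      intro x y z hx hy hz h1 h2 h3
      have h4 : x ^ 2 * (y * z) ≤ E ^ 2 := by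
        have h5 := mul_le_mul h1 h2 (by positivity) hE0.le
        nlinarith
      have h5 : x ^ 2 * (3 / 4) ≤ E ^ 2 := le_trans (mul_le_mul_of_nonneg_left h3 (sq_nonneg x)) h4
      by_contra h6
      push Not at h6
      nlinarith
    have b1 := hbd _ _ _ k1 k2 k3 u12 u13 l23
    have b2 := hbd _ _ _ k2 k1 k3 (by rwa [mul_comm]) u23 l13
    have b3 := hbd _ _ _ k3 k1 k2 (by rwa [mul_comm]) (by rwa [mul_comm]) l12
    have hw : Matrix.mulVec (ρ g) v = (v 0 / 3) •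
        (l g a1 • N (F (τ g a1)) + l g a2 • N (F (τ g a2)) + l g a3 • N (F (τ g a3))) := by
      conv_lhs => rw [hvp]
      rw [Matrix.mulVec_smul, Matrix.mulVec_add, Matrix.mulVec_add, ← ha1, ← ha2, ← ha3, hρ, hρ, hρ]
    have hN0 : ∀ p : Sph, N p 0 = 1 := fun p => rfl
    have hw0 : Matrix.mulVec (ρ g) v 0 = (v 0 * l g a1 + v 0 * l g a2 + v 0 * l g a3) / 3 := by
      rw [hw]
      simp only [Pi.smul_apply, Pi.add_apply, smul_eq_mul, hN0]
      ring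
    obtain ⟨w1, w2⟩ := hH g v hv
    refine ⟨g⁻¹, Matrix.mulVec (ρ g) v, ⟨?_, ?_, w2⟩, ?_⟩
    · nlinarith [sq_nonneg (Matrix.mulVec (ρ g) v 1), sq_nonneg (Matrix.mulVec (ρ g) v 2),
        sq_nonneg (Matrix.mulVec (ρ g) v 3)]
    · rw [hw0]
      linarith
    · rw [Matrix.mulVec_mulVec, ← map_mul, inv_mul_cancel, map_one, Matrix.one_mulVec]

end Pool.Agent.Y31.CM
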